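import Mathlib
import Pool.Agent.V11310.TMFib
import Pool.Agent.V11310.TMGrowth

namespace Pool.Agent.Results.MP_7d59ed_nt.GrowthRate

open Pool.Agent.V11310.TMFib Filter Topology

lemma absR (n : ℕ) : |(h n : ℝ)| = ((|h n| : ℤ) : ℝ) := by push_cast; rfl

lemma compare_h (n : ℕ) (hn : 8 ≤ n) :
    Sr (n / 8) ≤ 3 * |(h n : ℝ)| ∧ |(h n : ℝ)| ≤ 3 * Sr (n / 8) := by
  obtain ⟨l, j, hj, rfl⟩ : ∃ l j, j < 8 ∧ n = 8 * l + j :=
    ⟨n / 8, n % 8, Nat.mod_lt _ (by norm_num), (Nat.div_add_mod n 8).symm⟩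
  have hdiv : (8 * l + j) / 8 = l := by omega
  rw [hdiv]
  have hr := ratio_r l (by omega)
  have hX := Xr_nonneg l
  have hY := Yr_one l
  unfold Sr
  obtain ⟨m, rfl⟩ : ∃ m, l = m + 1 := ⟨l - 1, by omega⟩
  have hb := e_block (m + 1)
  interval_cases j
  · have : |(h (8 * (m + 1) + 0) : ℝ)| = Xr (m + 1) := by
      rw [absR, show 8 * (m + 1) + 0 = 2 * (4 * (m + 1)) by ring, abs_h_even, hb.1]; rfl
    rw [this]; constructor <;> linarith
  · have : |(h (8 * (m + 1) + 1) : ℝ)| = Yr (m + 1) := by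
      rw [absR, show 8 * (m + 1) + 1 = 2 * (4 * m + 3) + 3 by ring, abs_h_odd,
        (e_block m).2.2.2]; rfl
    rw [this]; constructor <;> linarith
  · have : |(h (8 * (m + 1) + 2) : ℝ)| = Xr (m + 1) + Yr (m + 1) := by
      rw [absR, show 8 * (m + 1) + 2 = 2 * (4 * (m + 1) + 1) by ring, abs_h_even, hb.2.1]
      push_cast; rfl
    rw [this]; constructor <;> linarith
  · have : |(h (8 * (m + 1) + 3) : ℝ)| = Xr (m + 1) := by
      rw [absR, show 8 * (m + 1) + 3 = 2 * (4 * (m + 1)) + 3 by ring, abs_h_odd, hb.1]; rfl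
    rw [this]; constructor <;> linarith
  · have : |(h (8 * (m + 1) + 4) : ℝ)| = Yr (m + 1) := by
      rw [absR, show 8 * (m + 1) + 4 = 2 * (4 * (m + 1) + 2) by ring, abs_h_even, hb.2.2.1]; rfl
    rw [this]; constructor <;> linarith
  · have : |(h (8 * (m + 1) + 5) : ℝ)| = Xr (m + 1) + Yr (m + 1) := by
      rw [absR, show 8 * (m + 1) + 5 = 2 * (4 * (m + 1) + 1) + 3 by ring, abs_h_odd, hb.2.1]
      push_cast; rfl
    rw [this]; constructor <;> linarith
  · have : |(h (8 * (m + 1) + 6) : ℝ)| = Xr (m + 1) + 2 * Yr (m + 1) := by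
      rw [absR, show 8 * (m + 1) + 6 = 2 * (4 * (m + 1) + 3) by ring, abs_h_even, hb.2.2.2]
      push_cast; rfl
    rw [this]; constructor <;> linarith
  · have : |(h (8 * (m + 1) + 7) : ℝ)| = Yr (m + 1) := by
      rw [absR, show 8 * (m + 1) + 7 = 2 * (4 * (m + 1) + 2) + 3 by ring, abs_h_odd, hb.2.2.1]
      rfl
    rw [this]; constructor <;> linarith

lemma div8_tendsto : Tendsto (fun n : ℕ => (((n / 8 : ℕ) : ℝ)) / n) atTop (𝓝 (1 / 8)) := by
  have h1 : Tendsto (fun n : ℕ => (1 / 8 : ℝ) - 1 / n) atTop (𝓝 (1 / 8 - 0)) :=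
    tendsto_const_nhds.sub (tendsto_const_div_atTop_nhds_zero_nat 1)
  rw [sub_zero] at h1
  refine tendsto_of_tendsto_of_tendsto_of_le_of_le' h1 tendsto_const_nhds ?_ ?_
  · filter_upwards [eventually_ge_atTop 1] with n hn
    have hn' : (0 : ℝ) < n := by exact_mod_cast hn
    rw [le_div_iff₀ hn', sub_mul, one_div_mul_cancel hn'.ne']
    have h2 : n < 8 * (n / 8 + 1) := by omega
    have h3 : (n : ℝ) < 8 * (((n / 8 : ℕ) : ℝ) + 1) := by exact_mod_cast h2
    linarith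
  · filter_upwards [eventually_ge_atTop 1] with n hn
    have hn' : (0 : ℝ) < n := by exact_mod_cast hn
    rw [div_le_iff₀ hn']
    have h2 : 8 * (n / 8) ≤ n := by omega
    have h3 : 8 * ((n / 8 : ℕ) : ℝ) ≤ n := by exact_mod_cast h2
    linarith

lemma div8_atTop : Tendsto (fun n : ℕ => n / 8) atTop atTop := by
  apply tendsto_atTop_atTop.2
  intro b
  exact ⟨8 * b, fun a ha => by omega⟩

lemma log_limit {L : ℝ} (hL : Tendsto (fun n : ℕ => φ n / n) atTop (𝓝 L)) :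
    Tendsto (fun n : ℕ => Real.log |(h n : ℝ)| / n) atTop (𝓝 (L / 8)) := by
  have h1 : Tendsto (fun n : ℕ => (φ (n / 8) / ((n / 8 : ℕ) : ℝ)) * (((n / 8 : ℕ) : ℝ) / n)) atTop
      (𝓝 (L * (1 / 8))) := (hL.comp div8_atTop).mul div8_tendsto
  have h2 : Tendsto (fun n : ℕ => (Real.log |(h n : ℝ)| - φ (n / 8)) / n) atTop (𝓝 0) := by
    have h3 := tendsto_const_div_atTop_nhds_zero_nat (Real.log 3)
    have h3' := h3.neg
    rw [neg_zero] at h3'
    refine tendsto_of_tendsto_of_tendsto_of_le_of_le' h3' h3 ?_ ?_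
    · filter_upwards [eventually_ge_atTop 8] with n hn
      have hn' : (0 : ℝ) < n := by exact_mod_cast (by omega : 0 < n)
      obtain ⟨c1, c2⟩ := compare_h n hn
      have hS := Sr_pos (n / 8)
      have hh : 0 < |(h n : ℝ)| := by linarith
      have := Real.log_le_log hS c1
      rw [Real.log_mul (by norm_num) hh.ne'] at this
      rw [← neg_div]
      apply div_le_div_of_nonneg_right _ hn'.le
      unfold φ
      linarith
    · filter_upwards [eventually_ge_atTop 8] with n hn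
      have hn' : (0 : ℝ) < n := by exact_mod_cast (by omega : 0 < n)
      obtain ⟨c1, c2⟩ := compare_h n hn
      have hS := Sr_pos (n / 8)
      have hh : 0 < |(h n : ℝ)| := by linarith
      have := Real.log_le_log hh c2
      rw [Real.log_mul (by norm_num) hS.ne'] at this
      apply div_le_div_of_nonneg_right _ hn'.le
      unfold φ
      linarith
  have h4 := h1.add h2
  rw [add_zero, show L * (1 / 8) = L / 8 by ring] at h4
  refine h4.congr' ?_
  filter_upwards [eventually_ge_atTop 8] with n hn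
  have hn' : (n : ℝ) ≠ 0 := by
    have : 0 < n := by omega
    positivity
  have hn8 : ((n / 8 : ℕ) : ℝ) ≠ 0 := by
    have : 0 < n / 8 := by omega
    positivity
  rw [div_mul_div_cancel₀ hn8]
  ring

lemma bounds_lower {k P Q : ℕ} (hk : 1 ≤ k) (hP : 0 < P) (hQ : 0 < Q)
    (hnum : P * (Mat k).1 ≤
      (((Mat k).1 + (Mat k).2.1) * (Mat k).1 + ((Mat k).1 + 2 * (Mat k).2.1) * (Mat k).2.2.1) * Q ∧
      P * (Mat k).2.1 ≤
      (((Mat k).1 + (Mat k).2.1) * (Mat k).2.1 + ((Mat k).1 + 2 * (Mat k).2.1) * (Mat k).2.2.2) * Q)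
    {L : ℝ} (hL : Tendsto (fun n : ℕ => φ n / n) atTop (𝓝 L)) :
    Real.log ((P : ℝ) / Q) / 2 ^ k ≤ L := by
  have hQ' : (0 : ℝ) < Q := by exact_mod_cast hQ
  have hP' : (0 : ℝ) < P := by exact_mod_cast hP
  apply L_lower hL hk (by positivity)
  apply U_lower
  · rw [div_mul_eq_mul_div, div_le_iff₀ hQ']
    exact_mod_cast hnum.1
  · rw [div_mul_eq_mul_div, div_le_iff₀ hQ']
    exact_mod_cast hnum.2

lemma bounds_upper {k P Q : ℕ} (hk : 1 ≤ k) (hP : 0 < P) (hQ : 0 < Q)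
    (hnum : (((Mat k).1 + (Mat k).2.1) * (Mat k).1 +
      (3 * (Mat k).1 + 2 * (Mat k).2.1) * (Mat k).2.2.1) * Q ≤ P * (Mat k).1 ∧
      (((Mat k).1 + (Mat k).2.1) * (Mat k).2.1 +
      (3 * (Mat k).1 + 2 * (Mat k).2.1) * (Mat k).2.2.2) * Q ≤ P * (Mat k).2.1)
    {L : ℝ} (hL : Tendsto (fun n : ℕ => φ n / n) atTop (𝓝 L)) :
    L ≤ Real.log ((P : ℝ) / Q) / 2 ^ k := by
  have hQ' : (0 : ℝ) < Q := by exact_mod_cast hQ
  have hP' : (0 : ℝ) < P := by exact_mod_cast hP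
  apply L_upper hL hk (by positivity)
  apply U_upper
  · rw [div_mul_eq_mul_div, le_div_iff₀ hQ']
    exact_mod_cast hnum.1
  · rw [div_mul_eq_mul_div, le_div_iff₀ hQ']
    exact_mod_cast hnum.2

lemma log_pow_div (a b N : ℕ) :
    Real.log (((a ^ N : ℕ) : ℝ) / ((b ^ N : ℕ) : ℝ)) = N * Real.log ((a : ℝ) / b) := by
  rw [Nat.cast_pow, Nat.cast_pow, ← div_pow, Real.log_pow]

/-- The limit of `|h_n|^{1/n}` exists and lies strictly between `1.1522` and `1.1524`. -/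
theorem result : ∃ g : ℝ, 1.1522 < g ∧ g < 1.1524 ∧
    Tendsto (fun n : ℕ => |(h n : ℝ)| ^ (1 / (n : ℝ))) atTop (𝓝 g) := by
  obtain ⟨L, hL⟩ := φ_limit
  have hp : ∀ a N : ℕ, 0 < a → 0 < a ^ N := fun a N ha => Nat.pow_pos ha
  have hlo := bounds_lower (k := 9) (P := 4609 ^ 4096) (Q := 4000 ^ 4096) (by norm_num)
    (hp _ _ (by norm_num)) (hp _ _ (by norm_num)) num_lower hL
  have hhi := bounds_upper (k := 9) (P := 23047 ^ 4096) (Q := 20000 ^ 4096) (by norm_num)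
    (hp _ _ (by norm_num)) (hp _ _ (by norm_num)) num_upper hL
  rw [log_pow_div] at hlo hhi
  refine ⟨Real.exp (L / 8), ?_, ?_, ?_⟩
  · have h1 : Real.log (((4609 : ℕ) : ℝ) / ((4000 : ℕ) : ℝ)) ≤ L / 8 := by
      have e : ((4096 : ℕ) : ℝ) * Real.log (((4609 : ℕ) : ℝ) / ((4000 : ℕ) : ℝ)) / 2 ^ 9 =
        8 * Real.log (((4609 : ℕ) : ℝ) / ((4000 : ℕ) : ℝ)) := by push_cast; ring
      rw [e] at hlo
      linarith
    have h2 : ((4609 : ℕ) : ℝ) / ((4000 : ℕ) : ℝ) ≤ Real.exp (L / 8) := by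
      rw [← Real.exp_log (show (0 : ℝ) < ((4609 : ℕ) : ℝ) / ((4000 : ℕ) : ℝ) by norm_num)]
      exact Real.exp_le_exp.2 h1
    norm_num at h2 ⊢
    linarith
  · have h1 : L / 8 ≤ Real.log (((23047 : ℕ) : ℝ) / ((20000 : ℕ) : ℝ)) := by
      have e : ((4096 : ℕ) : ℝ) * Real.log (((23047 : ℕ) : ℝ) / ((20000 : ℕ) : ℝ)) / 2 ^ 9 =
        8 * Real.log (((23047 : ℕ) : ℝ) / ((20000 : ℕ) : ℝ)) := by push_cast; ring
      rw [e] at hhi
      linarith
    have h2 : Real.exp (L / 8) ≤ ((23047 : ℕ) : ℝ) / ((20000 : ℕ) : ℝ) := by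
      rw [← Real.exp_log (show (0 : ℝ) < ((23047 : ℕ) : ℝ) / ((20000 : ℕ) : ℝ) by norm_num)]
      exact Real.exp_le_exp.2 h1
    norm_num at h2 ⊢
    linarith
  · have h1 := (Real.continuous_exp.tendsto (L / 8)).comp (log_limit hL)
    refine h1.congr' ?_
    filter_upwards [eventually_ge_atTop 8] with n hn
    have hS := Sr_pos (n / 8)
    have hh : 0 < |(h n : ℝ)| := by
      have := (compare_h n hn).1
      linarith
    simp only [Function.comp]
    rw [Real.rpow_def_of_pos hh]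
    congr 1
    ring

end Pool.Agent.Results.MP_7d59ed_nt.GrowthRate
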